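import Pool.Agent.Work.MP_0c526b_al.Fg.Final

/-!
# Maximal condition for abelian subgroups of finitely generated tree-free groups

Result on MP_0c526b_al (Q1): the positive answer.
-/

set_option autoImplicit false

namespace Pool.Agent.Results.MP_0c526b_al.AbelianChains

universe u v w

open LTree

/-- Let `G` be a group generated by a finite set `S`, acting freely and without inversions on a
`Λ`-tree, `Λ` any ordered abelian group. Then every ascending chain of abelian subgroups of `G` is
stationary, and its union is free abelian of rank at most `3|S| - 2`. -/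
theorem result :
    ∀ (Λ : Type u) [AddCommGroup Λ] [LinearOrder Λ] [IsOrderedAddMonoid Λ]
      (X : Type v) (D : Dist Λ X), Nonempty X → IsTree D →
      ∀ (G : Type w) [Group G] [MulAction G X], FreeAct D G →
      ∀ S : Finset G, Subgroup.closure (S : Set G) = ⊤ →
      ∀ A : ℕ → Subgroup G, (∀ n, ∀ a ∈ A n, ∀ b ∈ A n, a * b = b * a) →
        (∀ n, A n ≤ A (n + 1)) →
        ∃ N : ℕ, (∀ n, N ≤ n → A n = A N) ∧
          ∃ r : ℕ, r ≤ 3 * S.card - 2 ∧ Nonempty (A N ≃* Multiplicative (Fin r → ℤ)) := by
  intro Λ _ _ _ X D hne hT G _ _ hG S hS A hA hle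
  exact Fg.chain_abelian hT hG S hS hne A hA hle

end Pool.Agent.Results.MP_0c526b_al.AbelianChains
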