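import Pool.Agent.Work.MP_0c526b_al.Idx.Final
import Pool.Agent.Work.MP_0c526b_al.Idx.Subtree

/-!
# Finitely generated tree-free groups act freely on trees over groups of finite rank

Result on MP_0c526b_al (Q1): reduction of every ordered abelian group to finite rank.
-/

set_option autoImplicit false

namespace Pool.Agent.Results.MP_0c526b_al.FiniteRank

universe u v w

open LTree

/-- Let `G` be a group generated by a finite set `S`, acting freely and without inversions on a
`Λ`-tree `X`, `Λ` any ordered abelian group. Then there are a subgroup `Λ₀` of `Λ` of rank at most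
`3|S| - 2` and a nonempty invariant subset `Y` of `X` which, with the restricted metric, is a
`Λ₀`-tree on which `G` acts freely and without inversions. -/
theorem result :
    ∀ (Λ : Type u) [AddCommGroup Λ] [LinearOrder Λ] [IsOrderedAddMonoid Λ]
      (X : Type v) (D : Dist Λ X), Nonempty X → IsTree D →
      ∀ (G : Type w) [Group G] [MulAction G X], FreeAct D G →
      ∀ S : Finset G, Subgroup.closure (S : Set G) = ⊤ →
        ∃ Λ₀ : AddSubgroup Λ,
          (∀ (n : ℕ) (v : Fin n → Λ₀), LinearIndependent ℤ v → n ≤ 3 * S.card - 2) ∧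
          ∃ (Y : Set X) (_ : MulAction G Y) (D₀ : Dist Λ₀ Y),
            Y.Nonempty ∧
            (∀ (g : G) (y : Y), ((g • y : Y) : X) = g • (y : X)) ∧
            (∀ y z : Y, ((D₀.d y z : Λ₀) : Λ) = D.d y z) ∧
            IsTree D₀ ∧ FreeAct D₀ G := by
  intro Λ _ _ _ X D hne hT G _ _ hG S hS
  classical
  by_cases h1 : ∃ a : G, a ≠ 1
  · obtain ⟨a, ha⟩ := h1
    obtain ⟨p, hp⟩ := axis_nonempty hT hG ha
    obtain ⟨B, F0, hF0, hδ⟩ := Idx.two_dir hT hG ha hp
    obtain ⟨Y, act, D₀, h2, h3, h4, h5, h6⟩ := Idx.exists_subtree hT hG p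
    refine ⟨(lengths D G p).toAddSubgroup, ?_, Y, act, D₀, ⟨p, h4⟩, h2, h3, h5, h6⟩
    intro n v hv
    have := Idx.lengths_rank hT hG S hS p 2 B F0 hF0 hδ n v hv
    omega
  · push Not at h1
    obtain ⟨p⟩ := hne
    obtain ⟨Y, act, D₀, h2, h3, h4, h5, h6⟩ := Idx.exists_subtree hT hG p
    refine ⟨(lengths D G p).toAddSubgroup, ?_, Y, act, D₀, ⟨p, h4⟩, h2, h3, h5, h6⟩
    intro n v hv
    rcases Nat.eq_zero_or_pos n with rfl | hn
    · exact Nat.zero_le _
    exfalso
    apply hv.ne_zero ⟨0, hn⟩
    apply Subtype.ext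
    have hle : lengths D G p ≤ ⊥ := by
      unfold lengths
      refine Submodule.span_le.2 ?_
      rintro t ⟨x, hx, q, hq, rfl⟩
      have key : ∀ c ∈ hullPts D G p, c = p := by
        rintro c ⟨a, b, e, h1', -, -⟩
        rw [h1 a, h1 b, one_smul] at h1'
        exact Idx.eq_of_btw_self h1'
      rw [key x hx, key q hq, D.d_self]
      exact Submodule.zero_mem _
    exact hle (v ⟨0, hn⟩).2

end Pool.Agent.Results.MP_0c526b_al.FiniteRank
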