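import Pool.Agent.Work.MP_0c526b_al.Idx.Index

/-!
# The index inequality for free actions on trees over ordered abelian groups

Result on MP_0c526b_al (Q1): finitely many orbits of branch points, for every ordered abelian
group.
-/

set_option autoImplicit false

namespace Pool.Agent.Results.MP_0c526b_al.IndexInequality

universe u v w

open LTree

/-- Let `G` be a group generated by a finite set `S`, acting freely and without inversions on a
`Λ`-tree, `Λ` any ordered abelian group. Let `P` be a finite set of points in different orbits
containing `x0`, and for each `p` in `P` let `A p` be a finite set of elements of `G` such that the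
points `g • x0`, `g` in `A p`, are different from `p` and in different directions at `p`. Then the
sum over `P` of `|A p| - 2` is at most `2|S| - 2`. -/
theorem result :
    ∀ (Λ : Type u) [AddCommGroup Λ] [LinearOrder Λ] [IsOrderedAddMonoid Λ]
      (X : Type v) (D : Dist Λ X), IsTree D →
      ∀ (G : Type w) [Group G] [MulAction G X], FreeAct D G →
      ∀ S : Finset G, Subgroup.closure (S : Set G) = ⊤ →
      ∀ (x0 : X) (P : Finset X), x0 ∈ P →
        (∀ p ∈ P, ∀ q ∈ P, ∀ g : G, q = g • p → q = p) →
      ∀ A : X → Finset G, (∀ p ∈ P, ∀ g ∈ A p, g • x0 ≠ p) →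
        (∀ p ∈ P, ∀ g ∈ A p, ∀ h ∈ A p, g ≠ h → Btw D (g • x0) p (h • x0)) →
        ∑ p ∈ P, (((A p).card : ℤ) - 2) ≤ 2 * (S.card : ℤ) - 2 := by
  intro Λ _ _ _ X D hT G _ _ hG S hS x0 P hx0P hPP A hA hAA
  exact Idx.index_le hT hG S hS x0 P hx0P hPP A hA hAA

end Pool.Agent.Results.MP_0c526b_al.IndexInequality
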